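import Mathlib

namespace Pool.Agent.Results.MP_eb30e1_co.FewestFPP

open Finset

variable {n : ℕ}

/-- `r` is (the set of pairs of) an order relation on `Fin n`: reflexive, antisymmetric,
transitive. -/
def IsOrderRel (r : Finset (Fin n × Fin n)) : Prop :=
  (∀ a, (a, a) ∈ r) ∧ (∀ a b, (a, b) ∈ r → (b, a) ∈ r → a = b) ∧
    ∀ a b c, (a, b) ∈ r → (b, c) ∈ r → (a, c) ∈ r

/-- The fixed point property of the ordered set `(Fin n, r)`. -/
def HasFPP (r : Finset (Fin n × Fin n)) : Prop :=
  ∀ f : Fin n → Fin n, (∀ a b, (a, b) ∈ r → (f a, f b) ∈ r) → ∃ x, f x = x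

/-- `c 0, c 1, ..., c (n choose 2)` are the members of a maximal chain of order relations on
`Fin n`: it starts at the discrete order, ends at a linear order, and each step adds exactly one
pair. -/
def IsMaximalChain (n : ℕ) (c : ℕ → Finset (Fin n × Fin n)) : Prop :=
  (∀ i ≤ n.choose 2, IsOrderRel (c i)) ∧ (∀ a b, (a, b) ∈ c 0 ↔ a = b) ∧
    (∀ a b, (a, b) ∈ c (n.choose 2) ∨ (b, a) ∈ c (n.choose 2)) ∧
    ∀ i < n.choose 2, ∃ p, p ∉ c i ∧ c (i + 1) = insert p (c i)

open Classical in
/-- The number of members of the chain with the fixed point property. -/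
noncomputable def fppCount (n : ℕ) (c : ℕ → Finset (Fin n × Fin n)) : ℕ :=
  ((Finset.range (n.choose 2 + 1)).filter fun i => HasFPP (c i)).card

/-! ### Fixed points from comparability -/

theorem fix_of_rel {α : Type*} [Finite α] (R : α → α → Prop) (hr : ∀ a, R a a)
    (ha : ∀ a b, R a b → R b a → a = b) (ht : ∀ a b c, R a b → R b c → R a c)
    (f : α → α) (hf : ∀ a b, R a b → R (f a) (f b)) (p : α) (hp : R p (f p)) : ∃ x, f x = x := by
  classical
  cases nonempty_fintype α
  obtain ⟨x, hx, hmax⟩ := Finset.exists_max_image (Finset.univ.filter fun x => R x (f x))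
    (fun x => (Finset.univ.filter fun y => R y x).card) ⟨p, by simpa using hp⟩
  have hx1 : R x (f x) := by simpa using hx
  refine ⟨x, ?_⟩
  have h1 : R (f x) (f (f x)) := hf _ _ hx1
  have h2 := hmax (f x) (by simpa using h1)
  have hsub : (Finset.univ.filter fun y => R y x) ⊆ (Finset.univ.filter fun y => R y (f x)) := by
    intro y hy
    simp only [Finset.mem_filter, Finset.mem_univ, true_and] at hy ⊢
    exact ht _ _ _ hy hx1
  have heq := Finset.eq_of_subset_of_card_le hsub h2
  have h3 : f x ∈ (Finset.univ.filter fun y => R y x) := by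
    rw [heq]; simpa using hr (f x)
  exact ha _ _ (by simpa using h3) hx1

theorem fix_of_comp {r : Finset (Fin n × Fin n)} (hr : IsOrderRel r) (f : Fin n → Fin n)
    (hf : ∀ a b, (a, b) ∈ r → (f a, f b) ∈ r) (p : Fin n)
    (hp : (p, f p) ∈ r ∨ (f p, p) ∈ r) : ∃ x, f x = x := by
  rcases hp with hp | hp
  · exact fix_of_rel (fun a b => (a, b) ∈ r) hr.1 hr.2.1 hr.2.2 f hf p hp
  · exact fix_of_rel (fun a b => (b, a) ∈ r) hr.1 (fun a b h1 h2 => hr.2.1 a b h2 h1)
      (fun a b c h1 h2 => hr.2.2 c b a h2 h1) f (fun a b h => hf b a h) p hp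

/-! ### Counting incomparable pairs -/

/-- the diagonal -/
def diagEmb : Fin n ↪ Fin n × Fin n := ⟨fun a => (a, a), fun _ _ h => (Prod.ext_iff.1 h).1⟩

theorem mem_diag {a b : Fin n} :
    (a, b) ∈ (Finset.univ : Finset (Fin n)).map diagEmb ↔ a = b := by
  rw [Finset.mem_map]
  constructor
  · rintro ⟨c, _, hc⟩
    have h := Prod.ext_iff.1 hc
    exact h.1.symm.trans h.2
  · rintro rfl
    exact ⟨a, Finset.mem_univ _, rfl⟩

/-- ordered incomparable pairs -/
def inc (r : Finset (Fin n × Fin n)) : Finset (Fin n × Fin n) :=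
  Finset.univ.filter fun p => p ∉ r ∧ p.swap ∉ r

theorem mem_inc {r : Finset (Fin n × Fin n)} {a b : Fin n} :
    (a, b) ∈ inc r ↔ (a, b) ∉ r ∧ (b, a) ∉ r := by simp [inc]

theorem card_inc {r : Finset (Fin n × Fin n)} (hr : IsOrderRel r) :
    (inc r).card + 2 * r.card = n * n + n := by
  have h1 : (inc r).card + (r ∪ r.map (Equiv.prodComm _ _).toEmbedding).card = n * n := by
    rw [← Finset.card_union_of_disjoint]
    · have : inc r ∪ (r ∪ r.map (Equiv.prodComm _ _).toEmbedding) = Finset.univ := by
        ext ⟨a, b⟩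
        simp only [Finset.mem_union, mem_inc, Finset.mem_univ, iff_true, Finset.mem_map_equiv,
          Equiv.prodComm_symm, Equiv.prodComm_apply, Prod.swap_prod_mk]
        tauto
      rw [this, Finset.card_univ, Fintype.card_prod, Fintype.card_fin]
    · rw [Finset.disjoint_left]
      rintro ⟨a, b⟩ h1 h2
      rw [mem_inc] at h1
      simp only [Finset.mem_union, Finset.mem_map_equiv,
          Equiv.prodComm_symm, Equiv.prodComm_apply, Prod.swap_prod_mk] at h2
      tauto
  have h2 : (r ∪ r.map (Equiv.prodComm _ _).toEmbedding).card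
      + (r ∩ r.map (Equiv.prodComm _ _).toEmbedding).card = r.card + r.card := by
    rw [Finset.card_union_add_card_inter, Finset.card_map]
  have h3 : (r ∩ r.map (Equiv.prodComm _ _).toEmbedding).card = n := by
    have : r ∩ r.map (Equiv.prodComm _ _).toEmbedding
        = (Finset.univ : Finset (Fin n)).map diagEmb := by
      ext ⟨a, b⟩
      rw [mem_diag]
      simp only [Finset.mem_inter, Finset.mem_map_equiv, Equiv.prodComm_symm, Equiv.prodComm_apply,
        Prod.swap_prod_mk]
      constructor
      · rintro ⟨h1, h2⟩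
        exact hr.2.1 a b h1 h2
      · rintro rfl
        exact ⟨hr.1 a, hr.1 a⟩
    rw [this, Finset.card_map, Finset.card_univ, Fintype.card_fin]
  omega

theorem two_choose (n : ℕ) : 2 * n.choose 2 + n = n * n := by
  rw [Nat.choose_two_right]
  have h : 2 ∣ n * (n - 1) := by
    rcases Nat.even_or_odd n with h | h
    · exact Dvd.dvd.mul_right h.two_dvd _
    · rcases h with ⟨k, rfl⟩
      exact Dvd.dvd.mul_left ⟨k, by omega⟩ _
  rw [Nat.mul_div_cancel' h]
  cases n with
  | zero => rfl
  | succ m => simp only [Nat.add_sub_cancel]; ring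

theorem card_chain {c : ℕ → Finset (Fin n × Fin n)} (hc : IsMaximalChain n c) :
    ∀ i ≤ n.choose 2, (c i).card = n + i := by
  intro i
  induction i with
  | zero =>
    intro _
    have : c 0 = (Finset.univ : Finset (Fin n)).map diagEmb := by
      ext ⟨a, b⟩
      rw [hc.2.1 a b, mem_diag]
    rw [this, Finset.card_map, Finset.card_univ, Fintype.card_fin]
    rfl
  | succ i ih =>
    intro hi
    obtain ⟨p, hp, h⟩ := hc.2.2.2 i (by omega)
    rw [h, Finset.card_insert_of_notMem hp, ih (by omega)]
    omega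

theorem card_inc_chain {c : ℕ → Finset (Fin n × Fin n)} (hc : IsMaximalChain n c) (i : ℕ)
    (hi : i ≤ n.choose 2) : (inc (c i)).card = 2 * (n.choose 2 - i) := by
  have h1 := card_inc (hc.1 i hi)
  have h2 := card_chain hc i hi
  have h3 := two_choose n
  omega

/-- If there are fewer than `n/2` incomparable pairs, the order has the fixed point property. -/
theorem fpp_of_few {r : Finset (Fin n × Fin n)} (hr : IsOrderRel r) (h : (inc r).card < n) :
    HasFPP r := by
  intro f hf
  by_contra hno
  push Not at hno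
  have hall : ∀ a, (a, f a) ∈ inc r := by
    intro a
    rw [mem_inc]
    constructor
    · intro h1
      obtain ⟨x, hx⟩ := fix_of_comp hr f hf a (Or.inl h1)
      exact hno x hx
    · intro h1
      obtain ⟨x, hx⟩ := fix_of_comp hr f hf a (Or.inr h1)
      exact hno x hx
  have h1 : (Finset.univ : Finset (Fin n)).card ≤ (inc r).card := by
    apply Finset.card_le_card_of_injOn (fun a => (a, f a))
    · intro a _; exact hall a
    · intro a _ b _ hab
      exact (Prod.ext_iff.1 hab).1
  rw [Finset.card_univ, Fintype.card_fin] at h1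
  omega

/-- If there are exactly `n` ordered incomparable pairs and the order does not have the fixed point
property, then every order obtained by removing one pair has the fixed point property. -/
theorem fpp_pred {r s : Finset (Fin n × Fin n)} (hr : IsOrderRel r) (hs : IsOrderRel s)
    (p : Fin n × Fin n) (hp : p ∉ s) (hrs : r = insert p s) (h : (inc r).card = n)
    (hno : ¬ HasFPP r) : HasFPP s := by
  unfold HasFPP at hno
  push Not at hno
  obtain ⟨g, hg, hgno⟩ := hno
  have hall : ∀ a, (a, g a) ∈ inc r := by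
    intro a
    rw [mem_inc]
    constructor
    · intro h1
      obtain ⟨x, hx⟩ := fix_of_comp hr g hg a (Or.inl h1)
      exact hgno x hx
    · intro h1
      obtain ⟨x, hx⟩ := fix_of_comp hr g hg a (Or.inr h1)
      exact hgno x hx
  -- `inc r` is the graph of `g`
  have himg : (Finset.univ : Finset (Fin n)).image (fun a => (a, g a)) = inc r := by
    apply Finset.eq_of_subset_of_card_le
    · intro q hq
      simp only [Finset.mem_image, Finset.mem_univ, true_and] at hq
      obtain ⟨a, rfl⟩ := hq
      exact hall a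
    · rw [Finset.card_image_of_injective _ (fun a b hab => (Prod.ext_iff.1 hab).1),
        Finset.card_univ, Fintype.card_fin, h]
  have hgr : ∀ a b, (a, b) ∈ inc r → b = g a := by
    intro a b hab
    rw [← himg] at hab
    simp only [Finset.mem_image, Finset.mem_univ, true_and, Prod.mk.injEq] at hab
    obtain ⟨c, rfl, rfl⟩ := hab
    rfl
  have hgg : ∀ a, g (g a) = a := by
    intro a
    have h1 := hall a
    rw [mem_inc] at h1
    exact (hgr (g a) a (mem_inc.2 ⟨h1.2, h1.1⟩)).symm
  obtain ⟨x, y⟩ := p
  have hxy : (x, y) ∈ r := by rw [hrs]; exact Finset.mem_insert_self _ _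
  have hxne : x ≠ y := by
    rintro rfl
    exact hp (hs.1 x)
  have hsr : ∀ q, q ∈ s → q ∈ r := fun q hq => by rw [hrs]; exact Finset.mem_insert_of_mem hq
  -- incomparable pairs of `s`
  have hincs : ∀ a b, (a, b) ∉ s → (b, a) ∉ s → b = g a ∨ (a = x ∧ b = y) ∨ (a = y ∧ b = x) := by
    intro a b h1 h2
    by_cases h3 : (a, b) = (x, y)
    · right; left; exact Prod.ext_iff.1 h3
    by_cases h4 : (b, a) = (x, y)
    · right; right; exact ⟨(Prod.ext_iff.1 h4).2, (Prod.ext_iff.1 h4).1⟩
    left
    apply hgr
    rw [mem_inc, hrs, Finset.mem_insert, Finset.mem_insert]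
    tauto
  have hgx : g x ≠ y := by
    intro h1
    have h2 := hall x
    rw [h1, mem_inc] at h2
    exact h2.1 hxy
  have hgy : g y ≠ x := by
    intro h1
    apply hgx
    rw [← h1, hgg]
  intro f hf
  by_contra hfno
  push Not at hfno
  have hinc : ∀ a, (a, f a) ∉ s ∧ (f a, a) ∉ s := by
    intro a
    constructor
    · intro h1
      obtain ⟨z, hz⟩ := fix_of_comp hs f hf a (Or.inl h1)
      exact hfno z hz
    · intro h1
      obtain ⟨z, hz⟩ := fix_of_comp hs f hf a (Or.inr h1)
      exact hfno z hz
  have hfx : f (g x) = x := by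
    rcases hincs (g x) (f (g x)) (hinc _).1 (hinc _).2 with h1 | h1 | h1
    · rw [h1, hgg]
    · exact absurd h1.1 (hgno x)
    · exact absurd h1.1 hgx
  have hfy : f (g y) = y := by
    rcases hincs (g y) (f (g y)) (hinc _).1 (hinc _).2 with h1 | h1 | h1
    · rw [h1, hgg]
    · exact absurd h1.1 hgy
    · exact absurd h1.1 (hgno y)
  by_cases h1 : (g x, g y) ∈ s
  · have := hf _ _ h1
    rw [hfx, hfy] at this
    exact hp this
  by_cases h2 : (g y, g x) ∈ s
  · have := hf _ _ h2
    rw [hfx, hfy] at this
    exact hxne (hr.2.1 x y hxy (hsr _ this))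
  rcases hincs _ _ h1 h2 with h3 | h3 | h3
  · rw [hgg] at h3
    exact hgy h3
  · exact hgno x h3.1
  · exact hgx h3.1

open Classical in
theorem lower (n : ℕ) (hn : 1 ≤ n) (c : ℕ → Finset (Fin n × Fin n)) (hc : IsMaximalChain n c) :
    (if n = 2 then 1 else n / 2 + 1) ≤ fppCount n c := by
  have h2 := two_choose n
  have hfew : ∀ i ≤ n.choose 2, 2 * (n.choose 2 - i) < n → HasFPP (c i) := by
    intro i hi h
    apply fpp_of_few (hc.1 i hi)
    rw [card_inc_chain hc i hi]
    exact h
  rcases Nat.even_or_odd n with he | ho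
  · obtain ⟨m, hm⟩ := he
    by_cases hn2 : n = 2
    · rw [if_pos hn2]
      unfold fppCount
      rw [Nat.one_le_iff_ne_zero, Finset.card_ne_zero]
      refine ⟨n.choose 2, ?_⟩
      rw [Finset.mem_filter, Finset.mem_range]
      exact ⟨by omega, hfew _ le_rfl (by omega)⟩
    · rw [if_neg hn2]
      have hm2 : 2 ≤ m := by omega
      have hN : m + 1 ≤ n.choose 2 := by
        have : n * n = 4 * (m * m) := by rw [hm]; ring
        have h4 : 2 * m ≤ m * m := Nat.mul_le_mul_right m hm2
        omega
      by_cases hf : HasFPP (c (n.choose 2 - m))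
      · have hsub : Finset.Icc (n.choose 2 - m) (n.choose 2) ⊆
            (Finset.range (n.choose 2 + 1)).filter fun i => HasFPP (c i) := by
          intro i hi
          rw [Finset.mem_Icc] at hi
          rw [Finset.mem_filter, Finset.mem_range]
          refine ⟨by omega, ?_⟩
          by_cases h : i = n.choose 2 - m
          · rw [h]; exact hf
          · exact hfew i hi.2 (by omega)
        have := Finset.card_le_card hsub
        rw [Nat.card_Icc] at this
        unfold fppCount
        omega
      · have hpred : HasFPP (c (n.choose 2 - m - 1)) := by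
          obtain ⟨p, hp, h⟩ := hc.2.2.2 (n.choose 2 - m - 1) (by omega)
          have e : n.choose 2 - m - 1 + 1 = n.choose 2 - m := by omega
          rw [e] at h
          refine fpp_pred (hc.1 _ (by omega)) (hc.1 _ (by omega)) p hp h ?_ hf
          rw [card_inc_chain hc _ (by omega)]
          omega
        have hsub : insert (n.choose 2 - m - 1) (Finset.Ioc (n.choose 2 - m) (n.choose 2)) ⊆
            (Finset.range (n.choose 2 + 1)).filter fun i => HasFPP (c i) := by
          intro i hi
          rw [Finset.mem_insert, Finset.mem_Ioc] at hi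
          rw [Finset.mem_filter, Finset.mem_range]
          rcases hi with rfl | hi
          · exact ⟨by omega, hpred⟩
          · exact ⟨by omega, hfew i hi.2 (by omega)⟩
        have := Finset.card_le_card hsub
        rw [Finset.card_insert_of_notMem (by rw [Finset.mem_Ioc]; omega), Nat.card_Ioc] at this
        unfold fppCount
        omega
  · obtain ⟨m, hm⟩ := ho
    rw [if_neg (by omega)]
    have hN : m ≤ n.choose 2 := by
      have : n * n = 4 * (m * m) + 4 * m + 1 := by rw [hm]; ring
      have h4 : m ≤ m * m := Nat.le_mul_self m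
      omega
    have hsub : Finset.Icc (n.choose 2 - m) (n.choose 2) ⊆
        (Finset.range (n.choose 2 + 1)).filter fun i => HasFPP (c i) := by
      intro i hi
      rw [Finset.mem_Icc] at hi
      rw [Finset.mem_filter, Finset.mem_range]
      exact ⟨by omega, hfew i hi.2 (by omega)⟩
    have := Finset.card_le_card hsub
    rw [Nat.card_Icc] at this
    unfold fppCount
    omega

/-! ### Refining chains of orders -/

/-- Between two orders one can add a single pair. -/
theorem exists_step {P Q : Finset (Fin n × Fin n)} (hP : IsOrderRel P) (hQ : IsOrderRel Q)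
    (hPQ : P ⊆ Q) (hne : P ≠ Q) : ∃ p, p ∉ P ∧ p ∈ Q ∧ IsOrderRel (insert p P) := by
  have hne2 : (Q \ P).Nonempty := by
    rw [Finset.sdiff_nonempty]
    intro h
    exact hne (Finset.Subset.antisymm hPQ h)
  obtain ⟨⟨a, b⟩, hab, hmin⟩ := Finset.exists_min_image (Q \ P)
    (fun q => (Q.filter fun z => z.2 = q.1).card + (Q.filter fun z => z.1 = q.2).card) hne2
  rw [Finset.mem_sdiff] at hab
  have hne3 : a ≠ b := by
    rintro rfl
    exact hab.2 (hP.1 a)
  -- strictly smaller down-sets
  have hdown : ∀ c, c ≠ a → (c, a) ∈ Q →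
      (Q.filter fun z => z.2 = c).card < (Q.filter fun z => z.2 = a).card := by
    intro c hca hc
    have h1 : ((Q.filter fun z => z.2 = c).image fun z => (z.1, a)).card
        = (Q.filter fun z => z.2 = c).card := by
      apply Finset.card_image_of_injOn
      intro z hz w hw hzw
      simp only [Finset.coe_filter, Set.mem_ofPred_eq] at hz hw
      exact Prod.ext (Prod.ext_iff.1 hzw).1 (hz.2.trans hw.2.symm)
    rw [← h1]
    apply Finset.card_lt_card
    rw [Finset.ssubset_iff_of_subset]
    · refine ⟨(a, a), ?_, ?_⟩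
      · rw [Finset.mem_filter]; exact ⟨hQ.1 a, rfl⟩
      · intro h
        rw [Finset.mem_image] at h
        obtain ⟨z, hz, hza⟩ := h
        rw [Finset.mem_filter] at hz
        have e1 : z.1 = a := (Prod.ext_iff.1 hza).1
        have : (a, c) ∈ Q := by
          rw [← e1, ← hz.2]; exact hz.1
        exact hca (hQ.2.1 c a hc this)
    · intro z hz
      rw [Finset.mem_image] at hz
      obtain ⟨w, hw, rfl⟩ := hz
      rw [Finset.mem_filter] at hw ⊢
      refine ⟨hQ.2.2 _ c _ ?_ hc, rfl⟩
      rw [← hw.2]; exact hw.1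
  have hup : ∀ d, d ≠ b → (b, d) ∈ Q →
      (Q.filter fun z => z.1 = d).card < (Q.filter fun z => z.1 = b).card := by
    intro d hdb hd
    have h1 : ((Q.filter fun z => z.1 = d).image fun z => (b, z.2)).card
        = (Q.filter fun z => z.1 = d).card := by
      apply Finset.card_image_of_injOn
      intro z hz w hw hzw
      simp only [Finset.coe_filter, Set.mem_ofPred_eq] at hz hw
      exact Prod.ext (hz.2.trans hw.2.symm) (Prod.ext_iff.1 hzw).2
    rw [← h1]
    apply Finset.card_lt_card
    rw [Finset.ssubset_iff_of_subset]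
    · refine ⟨(b, b), ?_, ?_⟩
      · rw [Finset.mem_filter]; exact ⟨hQ.1 b, rfl⟩
      · intro h
        rw [Finset.mem_image] at h
        obtain ⟨z, hz, hza⟩ := h
        rw [Finset.mem_filter] at hz
        have e1 : z.2 = b := (Prod.ext_iff.1 hza).2
        have : (d, b) ∈ Q := by
          rw [← e1, ← hz.2]; exact hz.1
        exact hdb (hQ.2.1 d b this hd)
    · intro z hz
      rw [Finset.mem_image] at hz
      obtain ⟨w, hw, rfl⟩ := hz
      rw [Finset.mem_filter] at hw ⊢
      refine ⟨hQ.2.2 _ d _ hd ?_, rfl⟩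
      rw [← hw.2]; exact hw.1
  have hA : ∀ c, (c, a) ∈ P → c = a ∨ (c, b) ∈ P := by
    intro c hc
    by_contra hcon
    push Not at hcon
    have hcb : (c, b) ∈ Q := hQ.2.2 _ _ _ (hPQ hc) hab.1
    have h1 := hmin (c, b) (Finset.mem_sdiff.2 ⟨hcb, hcon.2⟩)
    have h2 := hdown c hcon.1 (hPQ hc)
    simp only at h1
    omega
  have hB : ∀ d, (b, d) ∈ P → d = b ∨ (a, d) ∈ P := by
    intro d hd
    by_contra hcon
    push Not at hcon
    have hcb : (a, d) ∈ Q := hQ.2.2 _ _ _ hab.1 (hPQ hd)
    have h1 := hmin (a, d) (Finset.mem_sdiff.2 ⟨hcb, hcon.2⟩)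
    have h2 := hup d hcon.1 (hPQ hd)
    simp only at h1
    omega
  refine ⟨(a, b), hab.2, hab.1, ?_, ?_, ?_⟩
  · intro x; exact Finset.mem_insert_of_mem (hP.1 x)
  · intro x y h1 h2
    have hsub : ∀ q, q ∈ insert (a, b) P → q ∈ Q := by
      intro q hq
      rcases Finset.mem_insert.1 hq with rfl | hq
      · exact hab.1
      · exact hPQ hq
    exact hQ.2.1 x y (hsub _ h1) (hsub _ h2)
  · intro x y z h1 h2
    rw [Finset.mem_insert] at h1 h2 ⊢
    rcases h1 with h1 | h1 <;> rcases h2 with h2 | h2
    · obtain ⟨rfl, rfl⟩ := Prod.ext_iff.1 h1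
      obtain ⟨h3, h4⟩ := Prod.ext_iff.1 h2
      exact absurd h3.symm hne3
    · obtain ⟨rfl, rfl⟩ := Prod.ext_iff.1 h1
      rcases hB z h2 with h3 | h3
      · left; rw [h3]
      · right; exact h3
    · obtain ⟨rfl, rfl⟩ := Prod.ext_iff.1 h2
      rcases hA x h1 with h3 | h3
      · left; rw [h3]
      · right; exact h3
    · right; exact hP.2.2 _ _ _ h1 h2

/-- a saturated path of orders -/
def IsPath (c : ℕ → Finset (Fin n × Fin n)) (k : ℕ) (P Q : Finset (Fin n × Fin n)) : Prop :=
  c 0 = P ∧ c k = Q ∧ (∀ i ≤ k, IsOrderRel (c i)) ∧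
    ∀ i < k, ∃ p, p ∉ c i ∧ c (i + 1) = insert p (c i)

theorem exists_path : ∀ (k : ℕ) {P Q : Finset (Fin n × Fin n)}, IsOrderRel P → IsOrderRel Q →
    P ⊆ Q → Q.card = P.card + k → ∃ c, IsPath c k P Q := by
  intro k
  induction k with
  | zero =>
    intro P Q hP hQ hPQ hcard
    have : P = Q := Finset.eq_of_subset_of_card_le hPQ (by omega)
    subst this
    exact ⟨fun _ => P, rfl, rfl, fun _ _ => hP, fun i hi => absurd hi (Nat.not_lt_zero i)⟩
  | succ k ih =>
    intro P Q hP hQ hPQ hcard
    obtain ⟨p, hp, hpQ, hins⟩ := exists_step hP hQ hPQ (by rintro rfl; omega)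
    obtain ⟨c, hc0, hck, hco, hcs⟩ := ih hins hQ (Finset.insert_subset hpQ hPQ)
      (by rw [Finset.card_insert_of_notMem hp]; omega)
    refine ⟨fun i => if i = 0 then P else c (i - 1), ?_, ?_, ?_, ?_⟩
    · simp
    · simp [hck]
    · intro i hi
      by_cases h : i = 0
      · simp only [h, if_true]; exact hP
      · simp only [h, if_false]; exact hco _ (by omega)
    · intro i hi
      by_cases h : i = 0
      · subst h
        refine ⟨p, by simpa using hp, ?_⟩
        simp [hc0]
      · obtain ⟨q, hq, hq2⟩ := hcs (i - 1) (by omega)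
        refine ⟨q, by simpa [h] using hq, ?_⟩
        have e : i - 1 + 1 = i := by omega
        rw [e] at hq2
        simp only [h, if_false, Nat.add_eq_zero_iff, one_ne_zero, and_false, Nat.add_sub_cancel]
        exact hq2

theorem path_mono {c : ℕ → Finset (Fin n × Fin n)} {k : ℕ} {P Q : Finset (Fin n × Fin n)}
    (h : IsPath c k P Q) : ∀ i j, i ≤ j → j ≤ k → c i ⊆ c j := by
  intro i j hij
  induction j, hij using Nat.le_induction with
  | base => intro _; exact Finset.Subset.refl _
  | succ j hij ih =>
    intro hj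
    obtain ⟨p, _, hp⟩ := h.2.2.2 j (by omega)
    rw [hp]
    exact (ih (by omega)).trans (Finset.subset_insert _ _)

theorem path_concat {c d : ℕ → Finset (Fin n × Fin n)} {k l : ℕ}
    {P Q R : Finset (Fin n × Fin n)} (h1 : IsPath c k P Q) (h2 : IsPath d l Q R) :
    IsPath (fun i => if i ≤ k then c i else d (i - k)) (k + l) P R := by
  refine ⟨?_, ?_, ?_, ?_⟩
  · simp [h1.1]
  · by_cases hl : l = 0
    · subst hl
      simp only [Nat.add_zero, le_refl, if_true]
      rw [h1.2.1, ← h2.1, h2.2.1]
    · have : ¬ k + l ≤ k := by omega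
      simp only [this, if_false, Nat.add_sub_cancel_left]
      exact h2.2.1
  · intro i hi
    by_cases h : i ≤ k
    · simp only [h, if_true]; exact h1.2.2.1 i h
    · simp only [h, if_false]; exact h2.2.2.1 _ (by omega)
  · intro i hi
    by_cases h : i + 1 ≤ k
    · have h' : i ≤ k := by omega
      simp only [h, h', if_true]
      exact h1.2.2.2 i (by omega)
    · by_cases h' : i ≤ k
      · have e : i = k := by omega
        subst e
        simp only [h, le_refl, if_true, if_false]
        have e2 : i + 1 - i = 0 + 1 := by omega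
        rw [e2, h1.2.1, ← h2.1]
        exact h2.2.2.2 0 (by omega)
      · simp only [h, h', if_false]
        have e2 : i + 1 - k = i - k + 1 := by omega
        rw [e2]
        exact h2.2.2.2 _ (by omega)

/-! ### The special orders -/

/-- the discrete order -/
def disc (n : ℕ) : Finset (Fin n × Fin n) := Finset.univ.filter fun p => p.1 = p.2

/-- the natural linear order -/
def lin (n : ℕ) : Finset (Fin n × Fin n) := Finset.univ.filter fun p => p.1 ≤ p.2

/-- size of the special block -/
def blk (n : ℕ) : ℕ := 4 - n % 2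

/-- removed pairs -/
def bad (n : ℕ) (i j : ℕ) : Prop := (i = 0 ∧ j < blk n) ∨ (j = i + 1 ∧ blk n ≤ i ∧ (i - blk n) % 2 = 0)

instance (n i j : ℕ) : Decidable (bad n i j) := by unfold bad; infer_instance

/-- strict relation of the order with `n/2+1` incomparable pairs -/
def FF (n : ℕ) : Finset (Fin n × Fin n) :=
  Finset.univ.filter fun p => p.1 = p.2 ∨ (p.1.1 < p.2.1 ∧ ¬ bad n p.1 p.2)

/-- the same with the point `1` isolated -/
def PP (n : ℕ) : Finset (Fin n × Fin n) :=
  Finset.univ.filter fun p => p.1 = p.2 ∨ (p.1.1 < p.2.1 ∧ ¬ bad n p.1 p.2 ∧ p.1.1 ≠ 1)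

theorem mem_disc {a b : Fin n} : (a, b) ∈ disc n ↔ a = b := by simp [disc]
theorem mem_lin {a b : Fin n} : (a, b) ∈ lin n ↔ a ≤ b := by simp [lin]
theorem mem_FF {a b : Fin n} : (a, b) ∈ FF n ↔ a.1 = b.1 ∨ (a.1 < b.1 ∧ ¬ bad n a b) := by
  simp [FF, Fin.ext_iff]
theorem mem_PP {a b : Fin n} :
    (a, b) ∈ PP n ↔ a.1 = b.1 ∨ (a.1 < b.1 ∧ ¬ bad n a b ∧ a.1 ≠ 1) := by
  simp [PP, Fin.ext_iff]

theorem ord_disc : IsOrderRel (disc n) := by
  refine ⟨fun a => mem_disc.2 rfl, fun a b h _ => mem_disc.1 h, fun a b c h1 h2 => ?_⟩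
  rw [mem_disc] at *
  exact h1.trans h2

theorem ord_lin : IsOrderRel (lin n) := by
  refine ⟨fun a => mem_lin.2 le_rfl, fun a b h1 h2 => ?_, fun a b c h1 h2 => ?_⟩
  · rw [mem_lin] at *; exact le_antisymm h1 h2
  · rw [mem_lin] at *; exact h1.trans h2

theorem ord_FF : IsOrderRel (FF n) := by
  refine ⟨fun a => mem_FF.2 (Or.inl rfl), fun a b h1 h2 => ?_, fun a b c h1 h2 => ?_⟩
  · rw [mem_FF] at *; apply Fin.ext; omega
  · rw [mem_FF] at *
    rcases h1 with h1 | ⟨h1, h1'⟩
    · rw [h1]; exact h2
    · rcases h2 with h2 | ⟨h2, h2'⟩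
      · rw [← h2]; right; exact ⟨h1, h1'⟩
      · right
        refine ⟨by omega, ?_⟩
        unfold bad at *
        omega

theorem ord_PP : IsOrderRel (PP n) := by
  refine ⟨fun a => mem_PP.2 (Or.inl rfl), fun a b h1 h2 => ?_, fun a b c h1 h2 => ?_⟩
  · rw [mem_PP] at *; apply Fin.ext; omega
  · rw [mem_PP] at *
    rcases h1 with h1 | ⟨h1, h1'⟩
    · rw [h1]; exact h2
    · rcases h2 with h2 | ⟨h2, h2'⟩
      · rw [← h2]; right; exact ⟨h1, h1'⟩
      · right
        refine ⟨by omega, ?_, h1'.2⟩
        unfold bad at *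
        omega

theorem disc_sub_PP : disc n ⊆ PP n := by
  rintro ⟨a, b⟩ h
  rw [mem_disc] at h
  subst h
  exact ord_PP.1 a

theorem PP_sub_FF : PP n ⊆ FF n := by
  rintro ⟨a, b⟩ h
  rw [mem_PP] at h
  rw [mem_FF]
  tauto

theorem FF_sub_lin : FF n ⊆ lin n := by
  rintro ⟨a, b⟩ h
  rw [mem_FF] at h
  rw [mem_lin, Fin.le_def]
  omega

/-- Orders contained in `PP` have an isolated point. -/
theorem not_fpp_of_sub_PP (hn : 2 ≤ n) {r : Finset (Fin n × Fin n)} (hr : IsOrderRel r)
    (h : r ⊆ PP n) : ¬ HasFPP r := by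
  intro hfpp
  obtain ⟨x, hx⟩ := hfpp (fun a => if a.1 = 1 then ⟨0, by omega⟩ else ⟨1, by omega⟩) (by
    intro a b hab
    have h1 := mem_PP.1 (h hab)
    rcases h1 with h1 | ⟨h1, h2, h3⟩
    · have : a = b := Fin.ext h1
      rw [this]; exact hr.1 _
    · have hb : b.1 ≠ 1 := by
        intro hb
        apply h2
        unfold bad blk
        omega
      simp only [h3, hb, if_false]
      exact hr.1 _)
  by_cases h1 : x.1 = 1
  · simp only [h1, if_true] at hx
    have := congrArg Fin.val hx
    simp only at this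
    omega
  · simp only [h1, if_false] at hx
    have := congrArg Fin.val hx
    simp only at this
    omega

/-- the fixed point free map -/
def swp (n : ℕ) (a : ℕ) : ℕ :=
  if a = 0 then 2 else if a < blk n then 0 else if (a - blk n) % 2 = 0 then a + 1 else a - 1

theorem not_fpp_of_between (hn : 3 ≤ n) {r : Finset (Fin n × Fin n)} (hr : IsOrderRel r)
    (h1 : PP n ⊆ r) (h2 : r ⊆ FF n) : ¬ HasFPP r := by
  intro hfpp
  have hb : blk n = 3 ∧ n % 2 = 1 ∨ blk n = 4 ∧ n % 2 = 0 := by unfold blk; omega
  have hlt : ∀ a : Fin n, swp n a.1 < n := by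
    intro a
    have := a.2
    unfold swp
    split_ifs <;> omega
  obtain ⟨x, hx⟩ := hfpp (fun a => ⟨swp n a.1, hlt a⟩) (by
    intro a b hab
    have h3 := mem_FF.1 (h2 hab)
    rcases h3 with h3 | ⟨h3, h4⟩
    · have : a = b := Fin.ext h3
      rw [this]; exact hr.1 _
    · apply h1
      rw [mem_PP]
      simp only
      unfold bad at h4 ⊢
      unfold swp
      split_ifs <;> omega)
  have := congrArg Fin.val hx
  simp only at this
  unfold swp at this
  split_ifs at this <;> omega

theorem card_disc : (disc n).card = n := by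
  have : (disc n) = (Finset.univ : Finset (Fin n)).map diagEmb := by
      ext ⟨a, b⟩
      rw [mem_disc, mem_diag]
  rw [this, Finset.card_map, Finset.card_univ, Fintype.card_fin]

theorem card_lin : (lin n).card = n + n.choose 2 := by
  have h := card_inc (ord_lin (n := n))
  have h2 : inc (lin n) = ∅ := by
    rw [Finset.eq_empty_iff_forall_notMem]
    rintro ⟨a, b⟩ h
    rw [mem_inc, mem_lin, mem_lin] at h
    exact h.2 (le_of_lt (not_le.1 h.1))
  rw [h2, Finset.card_empty] at h
  have := two_choose n
  omega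

theorem card_missing (hn : 3 ≤ n) : (lin n \ FF n).card ≤ n / 2 + 1 := by
  have hb : blk n = 3 ∧ n % 2 = 1 ∨ blk n = 4 ∧ n % 2 = 0 := by unfold blk; omega
  have hmem : ∀ p ∈ lin n \ FF n, p.1.1 < p.2.1 ∧ bad n p.1 p.2 := by
    rintro ⟨a, b⟩ h
    rw [Finset.mem_sdiff, mem_lin, mem_FF, Fin.le_def] at h
    obtain ⟨h1, h2⟩ := h
    push Not at h2
    have h3 : a.1 < b.1 := by omega
    exact ⟨h3, h2.2 h3⟩
  have : (lin n \ FF n).card ≤ (Finset.range (n / 2 + 1)).card := by
    apply Finset.card_le_card_of_injOn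
      (fun p => if p.1.1 = 0 then p.2.1 - 1 else blk n - 1 + (p.1.1 - blk n) / 2)
    · intro p hp
      have h := hmem p hp
      have := p.2.2
      rw [Finset.coe_range, Set.mem_Iio]
      unfold bad at h
      simp only
      split_ifs <;> omega
    · intro p hp q hq hpq
      have h := hmem p hp
      have h' := hmem q hq
      unfold bad at h h'
      simp only at hpq
      apply Prod.ext <;> apply Fin.ext <;> split_ifs at hpq <;> omega
  rwa [Finset.card_range] at this

theorem chain_of_path {c : ℕ → Finset (Fin n × Fin n)} {k : ℕ}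
    (h : IsPath c k (disc n) (lin n)) (hk : k = n.choose 2) : IsMaximalChain n c := by
  subst hk
  refine ⟨h.2.2.1, ?_, ?_, h.2.2.2⟩
  · intro a b; rw [h.1, mem_disc]
  · intro a b; rw [h.2.1, mem_lin, mem_lin]; exact le_total a b

open Classical in
theorem upper (n : ℕ) (_hn : 1 ≤ n) : ∃ c : ℕ → Finset (Fin n × Fin n), IsMaximalChain n c ∧
    fppCount n c ≤ (if n = 2 then 1 else n / 2 + 1) := by
  by_cases h3 : 3 ≤ n
  · rw [if_neg (by omega)]
    have e1 := Finset.card_le_card (disc_sub_PP (n := n))
    have e2 := Finset.card_le_card (PP_sub_FF (n := n))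
    have e3 := Finset.card_le_card (FF_sub_lin (n := n))
    obtain ⟨c1, hc1⟩ := exists_path ((PP n).card - (disc n).card) (ord_disc (n := n))
      (ord_PP (n := n)) disc_sub_PP (by omega)
    obtain ⟨c2, hc2⟩ := exists_path ((FF n).card - (PP n).card) (ord_PP (n := n))
      (ord_FF (n := n)) PP_sub_FF (by omega)
    obtain ⟨c3, hc3⟩ := exists_path ((lin n).card - (FF n).card) (ord_FF (n := n))
      (ord_lin (n := n)) FF_sub_lin (by omega)
    have h12 := path_concat hc1 hc2
    have h123 := path_concat h12 hc3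
    set k1 := (PP n).card - (disc n).card with hk1
    set k2 := (FF n).card - (PP n).card with hk2
    set k3 := (lin n).card - (FF n).card with hk3
    have hk : k1 + k2 + k3 = n.choose 2 := by
      have := card_disc (n := n)
      have := card_lin (n := n)
      omega
    refine ⟨_, chain_of_path h123 hk, ?_⟩
    have hm := card_missing h3
    rw [Finset.card_sdiff_of_subset FF_sub_lin] at hm
    have hsub : ((Finset.range (n.choose 2 + 1)).filter fun i => HasFPP
        ((fun i => if i ≤ k1 + k2 then (fun i => if i ≤ k1 then c1 i else c2 (i - k1)) i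
          else c3 (i - (k1 + k2))) i)) ⊆ Finset.Ioc (k1 + k2) (n.choose 2) := by
      intro i hi
      rw [Finset.mem_filter, Finset.mem_range] at hi
      rw [Finset.mem_Ioc]
      refine ⟨?_, by omega⟩
      by_contra hle
      have hle' : i ≤ k1 + k2 := by omega
      have hf := hi.2
      simp only [hle', if_true] at hf
      by_cases hi1 : i ≤ k1
      · simp only [hi1, if_true] at hf
        refine not_fpp_of_sub_PP (by omega) (hc1.2.2.1 i hi1) ?_ hf
        have := path_mono hc1 i k1 hi1 le_rfl
        rwa [hc1.2.1] at this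
      · simp only [hi1, if_false] at hf
        refine not_fpp_of_between h3 (hc2.2.2.1 _ (by omega)) ?_ ?_ hf
        · have := path_mono hc2 0 (i - k1) (by omega) (by omega)
          rwa [hc2.1] at this
        · have := path_mono hc2 (i - k1) k2 (by omega) le_rfl
          rwa [hc2.2.1] at this
    have h4 := Finset.card_le_card hsub
    rw [Nat.card_Ioc] at h4
    have h5 : n.choose 2 - (k1 + k2) ≤ n / 2 + 1 := by omega
    exact h4.trans h5
  · obtain ⟨c, hc⟩ := exists_path (n.choose 2) ord_disc ord_lin
      ((disc_sub_PP (n := n)).trans (PP_sub_FF.trans FF_sub_lin))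
      (by rw [card_disc, card_lin])
    refine ⟨c, chain_of_path hc rfl, ?_⟩
    by_cases h2 : n = 2
    · subst h2
      rw [if_pos rfl]
      have hsub : ((Finset.range (Nat.choose 2 2 + 1)).filter fun i => HasFPP (c i)) ⊆ {1} := by
        intro i hi
        rw [Finset.mem_filter, Finset.mem_range, Nat.choose_self] at hi
        rw [Finset.mem_singleton]
        by_contra hne
        have h0 : i = 0 := by omega
        have hf := hi.2
        rw [h0, hc.1] at hf
        exact not_fpp_of_sub_PP le_rfl ord_disc disc_sub_PP hf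
      have := Finset.card_le_card hsub
      rw [Finset.card_singleton] at this
      exact this
    · have h1 : n = 1 := by omega
      subst h1
      rw [if_neg (by omega)]
      unfold fppCount
      refine (Finset.card_filter_le _ _).trans ?_
      rw [Finset.card_range]
      decide

/-- For every `n ≥ 1`, the smallest number of members with the fixed point property in a maximal
chain of order relations on an `n`-element set is `⌊n/2⌋ + 1`, except that it is `1` for
`n = 2`. -/
theorem result (n : ℕ) (hn : 1 ≤ n) :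
    IsLeast {m : ℕ | ∃ c : ℕ → Finset (Fin n × Fin n), IsMaximalChain n c ∧ fppCount n c = m}
      (if n = 2 then 1 else n / 2 + 1) := by
  constructor
  · obtain ⟨c, hc, hle⟩ := upper n hn
    exact ⟨c, hc, le_antisymm hle (lower n hn c hc)⟩
  · rintro m ⟨c, hc, rfl⟩
    exact lower n hn c hc

end Pool.Agent.Results.MP_eb30e1_co.FewestFPP
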