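import Mathlib
import Pool.Agent.X70.FPPBase

namespace Pool.Agent.Results.MP_eb30e1_co.MostSwitches

open Finset Pool.Agent.X70.FPPBase

variable {n : ℕ}

open Classical in
/-- The number of adjacencies of the chain at which the fixed point property appears: the member
`c i` lacks it and the next member `c (i + 1)` has it. -/
noncomputable def switchCount (n : ℕ) (c : ℕ → Finset (Fin n × Fin n)) : ℕ :=
  ((Finset.range (n.choose 2)).filter fun i => ¬ HasFPP (c i) ∧ HasFPP (c (i + 1))).card

/-! ### The upper bound -/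

/-- An order with fewer than `n - 1` strict pairs lacks the fixed point property. -/
theorem not_fpp_of_few {r : Finset (Fin n × Fin n)} (hr : IsOrderRel r)
    (h : r.card + 1 < n + n) : ¬ HasFPP r := by
  classical
  let G : SimpleGraph (Fin n) := SimpleGraph.fromRel fun a b => (a, b) ∈ r
  have hG : ∀ a b, G.Adj a b ↔ a ≠ b ∧ ((a, b) ∈ r ∨ (b, a) ∈ r) := fun a b =>
    SimpleGraph.fromRel_adj _ a b
  have hcard : G.edgeFinset.card + n ≤ r.card := by
    have h1 : G.edgeFinset ⊆ (r.filter fun p => p.1 ≠ p.2).image fun p => s(p.1, p.2) := by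
      intro e he
      rw [SimpleGraph.mem_edgeFinset] at he
      induction e using Sym2.ind with
      | _ a b =>
        rw [SimpleGraph.mem_edgeSet, hG] at he
        rw [Finset.mem_image]
        rcases he.2 with h2 | h2
        · exact ⟨(a, b), Finset.mem_filter.2 ⟨h2, he.1⟩, rfl⟩
        · exact ⟨(b, a), Finset.mem_filter.2 ⟨h2, he.1.symm⟩, Sym2.eq_swap⟩
    have h2 := (Finset.card_le_card h1).trans Finset.card_image_le
    have h3 : ((r.filter fun p => p.1 ≠ p.2) ∪ (Finset.univ : Finset (Fin n)).map diagEmb).card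
        ≤ r.card := by
      apply Finset.card_le_card
      rintro ⟨a, b⟩ hab
      rw [Finset.mem_union, Pool.Agent.X70.FPPBase.mem_diag] at hab
      rcases hab with hab | rfl
      · exact (Finset.mem_filter.1 hab).1
      · exact hr.1 a
    rw [Finset.card_union_of_disjoint, Finset.card_map, Finset.card_univ, Fintype.card_fin] at h3
    · omega
    · rw [Finset.disjoint_left]
      rintro ⟨a, b⟩ h4 h5
      rw [Pool.Agent.X70.FPPBase.mem_diag] at h5
      exact (Finset.mem_filter.1 h4).2 h5
  have hn : 0 < n := by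
    have : n ≤ r.card := by omega
    omega
  have : Nonempty (Fin n) := ⟨⟨0, hn⟩⟩
  have hnc : ¬ G.Connected := by
    intro hc
    have h1 := hc.card_vert_le_card_edgeSet_add_one
    rw [Nat.card_eq_fintype_card, Fintype.card_fin, Nat.card_eq_fintype_card,
      ← SimpleGraph.edgeFinset_card] at h1
    omega
  have hnp : ¬ G.Preconnected := fun hp => hnc ⟨hp⟩
  unfold SimpleGraph.Preconnected at hnp
  push Not at hnp
  obtain ⟨u, v, huv⟩ := hnp
  intro hfpp
  obtain ⟨x, hx⟩ := hfpp (fun a => if G.Reachable u a then v else u) (by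
    intro a b hab
    by_cases hE : a = b
    · subst hE; exact hr.1 _
    have hadj : G.Adj a b := (hG a b).2 ⟨hE, Or.inl hab⟩
    have hiff : G.Reachable u a ↔ G.Reachable u b :=
      ⟨fun h => h.trans hadj.reachable, fun h => h.trans hadj.symm.reachable⟩
    simp only [hiff]
    exact hr.1 _)
  by_cases hux : G.Reachable u x
  · simp only [hux, if_true] at hx
    rw [← hx] at hux
    exact huv hux
  · simp only [hux, if_false] at hx
    rw [← hx] at hux
    exact hux (SimpleGraph.Reachable.refl u)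

theorem count_le (hn : 2 ≤ n) (c : ℕ → Finset (Fin n × Fin n)) (hc : IsMaximalChain n c) :
    switchCount n c ≤ (n - 2) ^ 2 / 4 + 1 := by
  classical
  unfold switchCount
  have hS : ∀ i, (i < n.choose 2 ∧ ¬ HasFPP (c i) ∧ HasFPP (c (i + 1))) →
      n ≤ i + 2 ∧ n ≤ 2 * (n.choose 2 - i) := by
    intro i hi
    constructor
    · by_contra hlt
      exact not_fpp_of_few (hc.1 (i+1) (by omega))
        (by rw [card_chain hc (i+1) (by omega)]; omega) hi.2.2
    · by_contra hlt
      exact hi.2.1 (fpp_of_few (hc.1 i (by omega))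
        (by rw [card_inc_chain hc i (by omega)]; omega))
  have h2 := two_choose n
  obtain ⟨m, rfl⟩ : ∃ m, n = m + 2 := ⟨n - 2, by omega⟩
  have e1 : (m + 2) * (m + 2) = m * m + 4 * m + 4 := by ring
  have e2 : (m + 2 - 2) ^ 2 = m * m := by rw [Nat.add_sub_cancel]; ring
  rw [e1] at h2
  rw [e2]
  have key := Finset.card_le_card_of_injOn (s := (Finset.range ((m+2).choose 2)).filter fun i =>
      ¬ HasFPP (c i) ∧ HasFPP (c (i + 1))) (t := Finset.range (m * m / 4 + 1))
      (fun i => (i - m) / 2) (by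
      intro i hi
      rw [Finset.mem_coe, Finset.mem_filter, Finset.mem_range] at hi
      have h3 := hS i hi
      rw [Finset.mem_coe, Finset.mem_range]
      simp only
      omega) (by
      intro i hi j hj hij
      rw [Finset.mem_coe, Finset.mem_filter, Finset.mem_range] at hi hj
      have h3 := hS i hi
      have h4 := hS j hj
      simp only at hij
      by_contra hne
      have h5 : j = i + 1 ∨ i = j + 1 := by omega
      rcases h5 with rfl | rfl
      · exact hj.2.1 hi.2.2
      · exact hi.2.1 hj.2.2)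
  rwa [Finset.card_range] at key

/-! ### The chain with many switches -/

/-- strict relation -/
def st (k jb jx x y : ℕ) : Prop :=
  x < y ∧ ((x < 2 * k ∧ ¬ (x % 2 = 0 ∧ y = x + 1)) ∨ (x = 2 * k ∧ 2 * k + 2 ≤ y) ∨
    (x = 2 * k + 1 ∧ (y = 2 * k + 2 ∨ 2 * k + 4 ≤ y) ∧ y ≤ jb) ∨
    (x = 2 * k + 2 ∧ 2 * k + 4 ≤ y ∧ y ≤ jx))

instance (k jb jx x y : ℕ) : Decidable (st k jb jx x y) := by unfold st; infer_instance

/-- the orders through which the chain passes -/
def R (n k jb jx : ℕ) : Finset (Fin n × Fin n) :=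
  Finset.univ.filter fun p => p.1 = p.2 ∨ st k jb jx p.1 p.2

theorem mem_R {k jb jx : ℕ} {a b : Fin n} :
    (a, b) ∈ R n k jb jx ↔ a.1 = b.1 ∨ st k jb jx a b := by
  simp [R, Fin.ext_iff]

theorem ord_R {k jb jx : ℕ} (h : jx ≤ jb) : IsOrderRel (R n k jb jx) := by
  refine ⟨fun a => mem_R.2 (Or.inl rfl), fun a b h1 h2 => ?_, fun a b c h1 h2 => ?_⟩
  · rw [mem_R] at *; apply Fin.ext; unfold st at *; omega
  · rw [mem_R] at *
    unfold st at *
    omega

theorem R_sub_lin {k jb jx : ℕ} : R n k jb jx ⊆ lin n := by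
  rintro ⟨a, b⟩ h
  rw [mem_R] at h
  rw [mem_lin, Fin.le_def]
  unfold st at h
  omega

theorem fpp_R {k j : ℕ} (hk : 2 * k + 2 < n) (hj : 2 * k + 3 ≤ j) : HasFPP (R n k j j) := by
  intro f hf
  by_contra hno
  push Not at hno
  have hinc : ∀ a, (a, f a) ∉ R n k j j ∧ (f a, a) ∉ R n k j j := by
    intro a
    constructor
    · intro h1
      obtain ⟨z, hz⟩ := fix_of_comp (ord_R le_rfl) f hf a (Or.inl h1)
      exact hno z hz
    · intro h1
      obtain ⟨z, hz⟩ := fix_of_comp (ord_R le_rfl) f hf a (Or.inr h1)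
      exact hno z hz
  have h0 := hinc ⟨2 * k, by omega⟩
  have h1 := hinc ⟨2 * k + 2, by omega⟩
  have h2 := hf ⟨2 * k, by omega⟩ ⟨2 * k + 2, by omega⟩ (by
    rw [mem_R]; right; unfold st; refine ⟨?_, Or.inr (Or.inl ⟨rfl, le_rfl⟩)⟩
    show 2 * k < 2 * k + 2
    omega)
  rw [mem_R] at h2
  rw [mem_R, mem_R] at h0 h1
  generalize (f ⟨2 * k, by omega⟩).1 = u at *
  generalize (f ⟨2 * k + 2, by omega⟩).1 = v at *
  unfold st at h0 h1 h2
  dsimp only at h0 h1
  have hu : u = 2 * k + 1 := by
    clear h1 h2 hinc hno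
    omega
  subst hu
  omega

/-- a fixed point free map -/
def mW (k a : ℕ) : ℕ :=
  if a < 2 * k then (if a % 2 = 0 then a + 1 else a - 1) else if a = 2 * k + 1 then 2 * k
    else 2 * k + 1

theorem not_fpp_W {k : ℕ} (hk : 2 * k + 1 < n) : ¬ HasFPP (R n k (2 * k + 1) (2 * k + 1)) := by
  intro hfpp
  have hlt : ∀ a : Fin n, mW k a.1 < n := by
    intro a
    have := a.2
    unfold mW
    split_ifs <;> omega
  obtain ⟨x, hx⟩ := hfpp (fun a => ⟨mW k a.1, hlt a⟩) (by
    intro a b hab
    have h3 := mem_R.1 hab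
    rw [mem_R]
    simp only
    unfold st at h3 ⊢
    unfold mW
    split_ifs <;> omega)
  have := congrArg Fin.val hx
  simp only at this
  unfold mW at this
  split_ifs at this <;> omega

/-- a fixed point free map -/
def mH (k j a : ℕ) : ℕ :=
  if a < 2 * k then (if a % 2 = 0 then a + 1 else a - 1) else if a = 2 * k + 1 then 2 * k
    else if a = 2 * k then 2 * k + 1 else if a = j then 2 * k + 2 else j

theorem not_fpp_H {k j : ℕ} (hk : 2 * k + 3 ≤ j) (hj : j + 1 < n) :
    ¬ HasFPP (R n k (j + 1) j) := by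
  intro hfpp
  have hlt : ∀ a : Fin n, mH k (j + 1) a.1 < n := by
    intro a
    have := a.2
    unfold mH
    split_ifs <;> omega
  obtain ⟨x, hx⟩ := hfpp (fun a => ⟨mH k (j + 1) a.1, hlt a⟩) (by
    intro a b hab
    have h3 := mem_R.1 hab
    rw [mem_R]
    simp only
    unfold st at h3 ⊢
    unfold mH
    split_ifs <;> omega)
  have := congrArg Fin.val hx
  simp only at this
  unfold mH at this
  split_ifs at this <;> omega

open Classical in
/-- number of switches along a path -/
noncomputable def sw (c : ℕ → Finset (Fin n × Fin n)) (k : ℕ) : ℕ :=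
  ∑ i ∈ Finset.range k, if (¬ HasFPP (c i) ∧ HasFPP (c (i + 1))) then 1 else 0

/-- there is a path from `r` to the linear order with at least `m` switches -/
def Good (r : Finset (Fin n × Fin n)) (m : ℕ) : Prop :=
  ∃ (c : ℕ → Finset (Fin n × Fin n)) (k : ℕ), IsPath c k r (lin n) ∧ m ≤ sw c k

theorem good_cons {r s : Finset (Fin n × Fin n)} (p : Fin n × Fin n) {m : ℕ}
    (hr : IsOrderRel r) (hp : p ∉ r) (hs : s = insert p r) (h : Good s m) : Good r m := by
  obtain ⟨c, k, ⟨hc0, hck, hco, hcs⟩, hm⟩ := h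
  refine ⟨fun i => Nat.casesOn i r c, k + 1, ⟨rfl, hck, ?_, ?_⟩, ?_⟩
  · intro i hi
    cases i with
    | zero => exact hr
    | succ i => exact hco i (by omega)
  · intro i hi
    cases i with
    | zero => exact ⟨p, hp, hc0.trans hs⟩
    | succ i => exact hcs i (by omega)
  · unfold sw at hm ⊢
    rw [Finset.sum_range_succ']
    exact hm.trans (Nat.le_add_right _ _)

open Classical in
theorem good_cons' {r s : Finset (Fin n × Fin n)} (p : Fin n × Fin n) {m : ℕ}
    (hr : IsOrderRel r) (hp : p ∉ r) (hs : s = insert p r) (h0 : ¬ HasFPP r) (h1 : HasFPP s)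
    (h : Good s m) : Good r (m + 1) := by
  obtain ⟨c, k, ⟨hc0, hck, hco, hcs⟩, hm⟩ := h
  refine ⟨fun i => Nat.casesOn i r c, k + 1, ⟨rfl, hck, ?_, ?_⟩, ?_⟩
  · intro i hi
    cases i with
    | zero => exact hr
    | succ i => exact hco i (by omega)
  · intro i hi
    cases i with
    | zero => exact ⟨p, hp, hc0.trans hs⟩
    | succ i => exact hcs i (by omega)
  · unfold sw at hm ⊢
    rw [Finset.sum_range_succ']
    have h2 : (¬ HasFPP r ∧ HasFPP (c 0)) := ⟨h0, by rw [hc0]; exact h1⟩
    apply Nat.add_le_add hm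
    show 1 ≤ if (¬ HasFPP r ∧ HasFPP (c 0)) then 1 else 0
    rw [if_pos h2]

theorem fpp_lin (hn : 1 ≤ n) : HasFPP (lin n) := by
  apply fpp_of_few ord_lin
  have h := card_inc (ord_lin (n := n))
  rw [card_lin] at h
  have := two_choose n
  omega

theorem good_one {r : Finset (Fin n × Fin n)} (hn : 1 ≤ n) (hr : IsOrderRel r) (hsub : r ⊆ lin n)
    (h0 : ¬ HasFPP r) : Good r 1 := by
  have hle := Finset.card_le_card hsub
  obtain ⟨c, hc⟩ := exists_path ((lin n).card - r.card) hr ord_lin hsub (by omega)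
  refine ⟨c, _, hc, ?_⟩
  by_contra hlt
  have h1 : sw c ((lin n).card - r.card) = 0 := by omega
  unfold sw at h1
  rw [Finset.sum_eq_zero_iff] at h1
  have h2 : ∀ i ≤ (lin n).card - r.card, ¬ HasFPP (c i) := by
    intro i
    induction i with
    | zero => intro _; rw [hc.1]; exact h0
    | succ i ih =>
      intro hi hf
      have h3 := h1 i (Finset.mem_range.2 (by omega))
      rw [if_pos ⟨ih (by omega), hf⟩] at h3
      exact one_ne_zero h3
  apply h2 _ le_rfl
  rw [hc.2.1]
  exact fpp_lin hn

theorem good_back {P Q : Finset (Fin n × Fin n)} {c : ℕ → Finset (Fin n × Fin n)} {k m : ℕ}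
    (hc : IsPath c k P Q) (h : Good Q m) : Good P m := by
  have : ∀ j ≤ k, Good (c (k - j)) m := by
    intro j
    induction j with
    | zero => intro _; rw [Nat.sub_zero, hc.2.1]; exact h
    | succ j ih =>
      intro hj
      obtain ⟨p, hp, hp2⟩ := hc.2.2.2 (k - (j + 1)) (by omega)
      have e : k - (j + 1) + 1 = k - j := by omega
      rw [e] at hp2
      exact good_cons p (hc.2.2.1 _ (by omega)) hp hp2 (ih (by omega))
  have h2 := this k le_rfl
  rwa [Nat.sub_self, hc.1] at h2

theorem good_G {k m : ℕ} (h : Good (R n k (n - 1) (n - 1)) m) (hk : 2 * k + 3 < n) :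
    ∀ d j : ℕ, j + 1 + d = n → 2 * k + 3 ≤ j → Good (R n k j j) (m + d) := by
  intro d
  induction d with
  | zero =>
    intro j hj hkj
    have : j = n - 1 := by omega
    subst this
    exact h
  | succ d ih =>
    intro j hj hkj
    have h1 := ih (j + 1) (by omega) (by omega)
    have h2 : Good (R n k (j + 1) j) (m + d + 1) := by
      refine good_cons' (⟨2 * k + 2, by omega⟩, ⟨j + 1, by omega⟩) (ord_R (by omega)) ?_ ?_
        (not_fpp_H hkj (by omega)) (fpp_R (by omega) (by omega)) h1
      · rw [mem_R]; unfold st; simp only; omega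
      · ext ⟨a, b⟩
        rw [Finset.mem_insert, mem_R, mem_R, Prod.mk.injEq, Fin.ext_iff, Fin.ext_iff]
        unfold st
        simp only
        omega
    refine good_cons (⟨2 * k + 1, by omega⟩, ⟨j + 1, by omega⟩) (ord_R (by omega)) ?_ ?_ h2
    · rw [mem_R]; unfold st; simp only; omega
    · ext ⟨a, b⟩
      rw [Finset.mem_insert, mem_R, mem_R, Prod.mk.injEq, Fin.ext_iff, Fin.ext_iff]
      unfold st
      simp only
      omega

theorem good_W : ∀ q k : ℕ, 2 * k + q = n → 2 ≤ q →
    Good (R n k (2 * k + 1) (2 * k + 1)) ((q - 2) ^ 2 / 4 + 1) := by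
  intro q
  induction q using Nat.strong_induction_on with
  | _ q ih =>
    intro k hk hq
    by_cases h4 : q < 4
    · have : (q - 2) ^ 2 / 4 + 1 = 1 := by
        have : q = 2 ∨ q = 3 := by omega
        rcases this with rfl | rfl <;> norm_num
      rw [this]
      exact good_one (by omega) (ord_R le_rfl) R_sub_lin (not_fpp_W (by omega))
    · obtain ⟨t, rfl⟩ : ∃ t, q = t + 4 := ⟨q - 4, by omega⟩
      have h1 := ih (t + 2) (by omega) (k + 1) (by omega) (by omega)
      have h2 : Good (R n k (n - 1) (n - 1)) ((t + 2 - 2) ^ 2 / 4 + 1) := by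
        refine good_cons (⟨2 * k + 1, by omega⟩, ⟨2 * k + 3, by omega⟩) (ord_R le_rfl) ?_ ?_ h1
        · rw [mem_R]; unfold st; simp only; omega
        · ext ⟨a, b⟩
          have ha := a.2
          have hb := b.2
          rw [Finset.mem_insert, mem_R, mem_R, Prod.mk.injEq, Fin.ext_iff, Fin.ext_iff]
          unfold st
          simp only
          omega
      have h3 := good_G h2 (by omega) t (2 * k + 3) (by omega) le_rfl
      have e : (t + 4 - 2) ^ 2 / 4 + 1 = (t + 2 - 2) ^ 2 / 4 + 1 + t + 1 := by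
        have e1 : (t + 4 - 2) ^ 2 = t * t + 4 * t + 4 := by
          have : t + 4 - 2 = t + 2 := by omega
          rw [this]; ring
        have e2 : (t + 2 - 2) ^ 2 = t * t := by rw [Nat.add_sub_cancel]; ring
        rw [e1, e2]
        omega
      rw [e]
      refine good_cons' (⟨2 * k + 1, by omega⟩, ⟨2 * k + 2, by omega⟩) (ord_R le_rfl) ?_ ?_
        (not_fpp_W (by omega)) (fpp_R (by omega) le_rfl) h3
      · rw [mem_R]; unfold st; simp only; omega
      · ext ⟨a, b⟩
        rw [Finset.mem_insert, mem_R, mem_R, Prod.mk.injEq, Fin.ext_iff, Fin.ext_iff]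
        unfold st
        simp only
        omega

theorem path_card {P Q : Finset (Fin n × Fin n)} {c : ℕ → Finset (Fin n × Fin n)} {k : ℕ}
    (hc : IsPath c k P Q) : ∀ i ≤ k, (c i).card = P.card + i := by
  intro i
  induction i with
  | zero => intro _; rw [hc.1]; rfl
  | succ i ih =>
    intro hi
    obtain ⟨p, hp, h⟩ := hc.2.2.2 i (by omega)
    rw [h, Finset.card_insert_of_notMem hp, ih (by omega)]
    omega

theorem disc_sub {r : Finset (Fin n × Fin n)} (hr : IsOrderRel r) : disc n ⊆ r := by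
  rintro ⟨a, b⟩ h
  rw [mem_disc] at h
  subst h
  exact hr.1 a

theorem exists_many (hn : 2 ≤ n) : ∃ c : ℕ → Finset (Fin n × Fin n), IsMaximalChain n c ∧
    (n - 2) ^ 2 / 4 + 1 ≤ switchCount n c := by
  have h1 := good_W (n := n) n 0 (by omega) hn
  have hsub := disc_sub (ord_R (n := n) (k := 0) (jb := 2 * 0 + 1) (jx := 2 * 0 + 1) le_rfl)
  have hle := Finset.card_le_card hsub
  obtain ⟨c0, hc0⟩ := exists_path ((R n 0 (2 * 0 + 1) (2 * 0 + 1)).card - (disc n).card)
    ord_disc (ord_R le_rfl) hsub (by omega)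
  obtain ⟨c, k, hc, hm⟩ := good_back hc0 h1
  have hk : k = n.choose 2 := by
    have h2 := path_card hc k le_rfl
    rw [hc.2.1, card_lin, card_disc] at h2
    omega
  refine ⟨c, chain_of_path hc hk, ?_⟩
  unfold switchCount
  rw [Finset.card_filter, ← hk]
  exact hm

/-- The largest number of adjacencies of a maximal chain of order relations on an `n`-element set
at which the fixed point property appears is `⌊(n-2)²/4⌋ + 1` for `n ≥ 2`, and `0` for
`n ≤ 1`. -/
theorem result (n : ℕ) :
    IsGreatest {m : ℕ | ∃ c : ℕ → Finset (Fin n × Fin n), IsMaximalChain n c ∧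
      switchCount n c = m} (if n ≤ 1 then 0 else (n - 2) ^ 2 / 4 + 1) := by
  by_cases hn : n ≤ 1
  · rw [if_pos hn]
    have hz : n.choose 2 = 0 := Nat.choose_eq_zero_of_lt (by omega)
    have h0 : ∀ c : ℕ → Finset (Fin n × Fin n), switchCount n c = 0 := by
      intro c
      unfold switchCount
      rw [hz]
      rfl
    constructor
    · obtain ⟨c, hc⟩ := exists_path (n.choose 2) ord_disc ord_lin (disc_sub ord_lin)
        (by rw [card_disc, card_lin])
      exact ⟨c, chain_of_path hc rfl, h0 c⟩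
    · rintro m ⟨c, _, rfl⟩
      exact (h0 c).le
  · rw [if_neg hn]
    constructor
    · obtain ⟨c, hc, hle⟩ := exists_many (n := n) (by omega)
      exact ⟨c, hc, le_antisymm (count_le (by omega) c hc) hle⟩
    · rintro m ⟨c, hc, rfl⟩
      exact count_le (by omega) c hc

end Pool.Agent.Results.MP_eb30e1_co.MostSwitches
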